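import Pool.Agent.R260.GszC

set_option autoImplicit false

open Polynomial Finset Pool.Agent.R260.Gsz

namespace Pool.Agent.Results.MP_d36490_an.ZeroBound

/-- The coefficient of `z^j` in `_{p+2}F_q(-n, n+lam, a_1..a_p; b_1..b_q; z)`. -/
noncomputable def coef {p q : ℕ} (lam : ℂ) (a : Fin p → ℂ) (b : Fin q → ℂ) (n j : ℕ) : ℂ :=
  ((ascPochhammer ℂ j).eval (-(n:ℂ)) * (ascPochhammer ℂ j).eval ((n:ℂ) + lam) *
    ∏ k, (ascPochhammer ℂ j).eval (a k)) /
    ((∏ k, (ascPochhammer ℂ j).eval (b k)) * (j.factorial : ℂ))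

/-- The polynomial `P_n(z)` (the terms with `j > n` vanish). -/
noncomputable def P {p q : ℕ} (lam : ℂ) (a : Fin p → ℂ) (b : Fin q → ℂ) (n : ℕ) : ℂ[X] :=
  ∑ j ∈ range (n + 1), C (coef lam a b n j) * X ^ j

lemma neg_poch (n j : ℕ) : (ascPochhammer ℂ j).eval (-(n:ℂ)) / (j.factorial : ℂ)
    = (-1)^j * (n.choose j : ℂ) := by
  rw [ascPochhammer_eval_neg_eq_descPochhammer, descPochhammer_eval_eq_descFactorial,
    Nat.descFactorial_eq_factorial_mul_choose]
  have : (j.factorial : ℂ) ≠ 0 := by exact_mod_cast Nat.factorial_ne_zero j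
  push_cast
  field_simp

lemma coef_eq {p q : ℕ} (lam : ℂ) (a : Fin p → ℂ) (b : Fin q → ℂ) (n j : ℕ) :
    coef lam a b n j = (n.choose j : ℂ) * ((-1)^j *
      (poch (n + lam) j * ((∏ k, poch (a k) j) / (∏ k, poch (b k) j)))) := by
  unfold coef
  simp only [poch_eq (a _), poch_eq (b _), poch_eq ((n:ℂ) + lam)]
  rw [mul_assoc, mul_comm (∏ k, poch (b k) j) (j.factorial : ℂ), mul_div_mul_comm, neg_poch]
  ring

lemma P_eval {p q : ℕ} (lam : ℂ) (a : Fin p → ℂ) (b : Fin q → ℂ) (n : ℕ) (z : ℂ) :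
    (P lam a b n).eval z = bsum n (fun j => (-1)^j *
      (poch (n + lam) j * ((∏ k, poch (a k) j) / (∏ k, poch (b k) j)))) z := by
  unfold P bsum
  rw [eval_finsetSum]
  apply sum_congr rfl
  intro j _
  rw [coef_eq]
  simp

/-- MP_d36490_an, Q1: for all admissible parameters, `|z_{j,n}| <= M n^(q-p-1)`. -/
theorem result (p q : ℕ) (hqp : q ≤ p) (lam : ℂ) (a : Fin p → ℂ) (b : Fin q → ℂ)
    (ha : ∀ (k : Fin p) (m : ℕ), a k ≠ -(m:ℂ)) (hb : ∀ (k : Fin q) (m : ℕ), b k ≠ -(m:ℂ)) :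
    ∃ M : ℝ, ∀ n : ℕ, 1 ≤ n → coef lam a b n n ≠ 0 →
      ∀ z : ℂ, (P lam a b n).IsRoot z → ‖z‖ ≤ M * (n:ℝ) ^ ((q:ℤ) - (p:ℤ) - 1) := by
  obtain ⟨m, rfl⟩ := Nat.exists_eq_add_of_le hqp
  -- the parameter factor
  have hZE : ZE (fun j => (∏ k, poch (a k) j) / (∏ k, poch (b k) j)) m := by
    have h1 := ZE.prod (Finset.univ : Finset (Fin q))
      (fun k j => poch (a (Fin.castAdd m k)) j / poch (b k) j) 0
      (fun k => ZE_pair _ _ (ha _) (hb _))
    have h2 := ZE.prod (Finset.univ : Finset (Fin m))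
      (fun k j => poch (a (Fin.natAdd q k)) j) 1 (fun k => ZE_up _ (ha _))
    have h3 := h1.mul h2
    simp only [mul_zero, zero_add, card_univ, Fintype.card_fin, mul_one] at h3
    convert h3 using 2 with j
    rw [Fin.prod_univ_add, prod_div_distrib]
    ring
  obtain ⟨M, hM, hZ⟩ := hZE
  obtain ⟨N, hN⟩ := exists_nat_gt (2 * ‖lam‖ + 1)
  -- bound for large n
  have hbig : ∀ n : ℕ, N ≤ n → coef lam a b n n ≠ 0 → ∀ z : ℂ, (P lam a b n).IsRoot z →
      ‖z‖ ≤ 2 * M * (n:ℝ) ^ ((q:ℤ) - ((q + m : ℕ):ℤ) - 1) := by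
    intro n hn hne z hz
    have hnr : 2 * ‖lam‖ + 1 < n := lt_of_lt_of_le hN (by exact_mod_cast hn)
    have hlam := norm_nonneg lam
    have hn1 : (1:ℝ) < n := by linarith
    have hn1' : 1 ≤ n := by
      have : (1:ℝ) ≤ n := hn1.le
      exact_mod_cast this
    have hn0 : (0:ℝ) < n := by linarith
    have hre : (n:ℝ)/2 ≤ n + lam.re := by
      have := neg_abs_le lam.re
      have := Complex.abs_re_le_norm lam
      linarith
    have hpos : 0 < (n:ℝ) + lam.re := by linarith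
    rw [coef_eq] at hne
    have hpl : poch (n + lam) n ≠ 0 := by
      intro h
      apply hne
      rw [h]; simp
    have h1 := (ZB_bessel n lam hn1' hpos hpl).mono (S := 2 / n) (by
      rw [div_le_div_iff₀ hpos hn0]
      linarith)
    have h2 := ZB.comp (by positivity) (by positivity) h1 (hZ n hn1')
    have h3 := h2.sign
    rw [IsRoot.def, P_eval] at hz
    have h4 := h3.2 z hz
    refine le_trans h4 (le_of_eq ?_)
    have e : ((q:ℤ) - ((q + m : ℕ):ℤ) - 1) = -((m + 1 : ℕ):ℤ) := by push_cast; ring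
    rw [e, zpow_neg, zpow_natCast, pow_succ]
    field_simp
  -- bound for each single n
  have hsmall : ∀ n : ℕ, ∃ K : ℝ, 0 ≤ K ∧ (1 ≤ n → coef lam a b n n ≠ 0 →
      ∀ z : ℂ, (P lam a b n).IsRoot z → ‖z‖ ≤ K * (n:ℝ) ^ ((q:ℤ) - ((q + m : ℕ):ℤ) - 1)) := by
    intro n
    by_cases hn : 1 ≤ n
    swap
    · exact ⟨0, le_rfl, fun h => absurd h hn⟩
    have hn0 : (0:ℝ) < n := by exact_mod_cast hn
    refine ⟨(∑ z ∈ (P lam a b n).roots.toFinset, ‖z‖) / (n:ℝ) ^ ((q:ℤ) - ((q + m : ℕ):ℤ) - 1),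
      ?_, ?_⟩
    · apply div_nonneg (sum_nonneg (fun _ _ => norm_nonneg _)) (by positivity)
    intro _ hne z hz
    have hpos : (0:ℝ) < (n:ℝ) ^ ((q:ℤ) - ((q + m : ℕ):ℤ) - 1) := by positivity
    rw [div_mul_cancel₀ _ hpos.ne']
    have hP0 : P lam a b n ≠ 0 := by
      intro h
      apply hne
      have hc := congrArg (fun f => coeff f n) h
      simp only [P, finsetSum_coeff, coeff_C_mul_X_pow, coeff_zero] at hc
      rw [sum_eq_single n] at hc
      · simpa using hc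
      · intro i _ hi
        rw [if_neg (Ne.symm hi)]
      · intro h'
        exact absurd (mem_range.mpr (by omega)) h'
    exact single_le_sum (f := fun z : ℂ => ‖z‖) (fun _ _ => norm_nonneg _)
      (Multiset.mem_toFinset.mpr (mem_roots'.mpr ⟨hP0, hz⟩))
  choose K hK0 hK using hsmall
  refine ⟨2 * M + ∑ n ∈ range N, K n, ?_⟩
  intro n hn hne z hz
  have hn0 : (0:ℝ) < n := by exact_mod_cast hn
  have hpos : (0:ℝ) < (n:ℝ) ^ ((q:ℤ) - ((q + m : ℕ):ℤ) - 1) := by positivity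
  have hs : 0 ≤ ∑ n ∈ range N, K n := sum_nonneg (fun i _ => hK0 i)
  by_cases hnN : N ≤ n
  · refine le_trans (hbig n hnN hne z hz) ?_
    apply mul_le_mul_of_nonneg_right _ hpos.le
    linarith
  · refine le_trans (hK n hn hne z hz) ?_
    apply mul_le_mul_of_nonneg_right _ hpos.le
    have : K n ≤ ∑ n ∈ range N, K n :=
      single_le_sum (fun i _ => hK0 i) (mem_range.mpr (by omega))
    linarith

end Pool.Agent.Results.MP_d36490_an.ZeroBound
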